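import Mathlib
import Pool.Agent.H.MP_eb0abf_al.Main

set_option autoImplicit false

namespace Pool.Agent.Results.MP_eb0abf_al.Q1

open Pool.Agent.H.MP_eb0abf_al

theorem result (k : Type) [Field k] : ∃ (V A : Type) (_ : Fintype V) (_ : Finite A) (s t : A → V),
    (∀ u v, Relation.ReflTransGen (fun u v => ∃ a, s a = u ∧ t a = v) u v) ∧
    ∃ (Λ : Type) (_ : Ring Λ) (_ : Algebra k Λ) (θ : PathAlg k s t →ₐ[k] Λ),
      Function.Surjective θ ∧ (∃ m ≥ 2, arrowIdeal k s t ^ m ≤ LinearMap.ker θ.toLinearMap) ∧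
      LinearMap.ker θ.toLinearMap ≤ arrowIdeal k s t ^ 2 ∧
      ∃ (x : V) (Ω : ℕ → ModuleCat.{0} Λ), IsSimpleModule Λ (Ω 0) ∧
        (∃ m : Ω 0, θ (gen k s t (Sum.inl x)) • m ≠ 0) ∧
        CategoryTheory.projectiveDimension (Ω 0) = ⊤ ∧
        (∀ n, IsSyz (Ω (n + 1)) (Ω n)) ∧
        ∀ n ≥ 1, ∀ m : Ω n, θ (gen k s t (Sum.inl x)) • m = 0 :=
  main k

end Pool.Agent.Results.MP_eb0abf_al.Q1
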